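import Pool.Agent.T9h45.LD.Spec

/-!
# Piece E3 of `T9h45.LD`: edges between different classes
-/

set_option autoImplicit false

namespace Pool.Agent.T9h82.LD

open Finset Classical Pool.T9h45.HY Pool.T9h45.CP Pool.T9h45.LD

theorem cn_mono {V : Type} [Fintype V] {P Q : V → Prop} (h : ∀ v, P v → Q v) : cn P ≤ cn Q := by
  unfold cn
  refine card_le_card fun v hv => ?_
  simp only [mem_filter, mem_univ, true_and] at hv ⊢
  exact h v hv

theorem cn_lt {V : Type} [Fintype V] {P Q : V → Prop} (h : ∀ v, P v → Q v) {y : V}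
    (h1 : ¬ P y) (h2 : Q y) : cn P + 1 ≤ cn Q := by
  unfold cn
  refine card_lt_card ?_
  rw [ssubset_iff_of_subset (fun v hv => by
    simp only [mem_filter, mem_univ, true_and] at hv ⊢
    exact h v hv)]
  exact ⟨y, by simpa using h2, by simpa using h1⟩

theorem cn_or {V : Type} [Fintype V] {P Q R : V → Prop} (h : ∀ v, P v → Q v ∨ R v) :
    cn P ≤ cn Q + cn R := by
  unfold cn
  refine le_trans (card_le_card fun v hv => ?_) (card_union_le _ _)
  simp only [mem_filter, mem_univ, true_and, mem_union] at hv ⊢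
  exact h v hv

/-- the preferences inside the class are smaller -/
theorem pf_lt {V : Type} {cl : V → V} {S big inn : V → Prop} {f : V → ℕ} {D h : ℕ} {x z : V}
    (hf : f z ≤ D) (hz : cl z = cl x) : pf cl S big inn f D h x z < 2 * th h + D + 2 := by
  unfold pf
  rw [if_neg (by simpa using hz)]
  split_ifs <;> omega

theorem pf_out {V : Type} {cl : V → V} {S big inn : V → Prop} {f : V → ℕ} {D h : ℕ} {x z : V}
    (hx : ¬ (¬ big x ∧ ¬ S x ∧ inn x)) (hz : cl z ≠ cl x) :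
    pf cl S big inn f D h x z = 2 * th h + D + 2 := by
  unfold pf
  rw [if_pos hz, if_neg hx]

theorem e3 : SE3 := by
  intro V _ G cl D h p S big inn σ f hd x y hx hy hxy hc
  have hfle := hd.fle
  have hcO : ∀ v, cO G S cl v ≤ h := fun v =>
    (cn_mono fun w hw => ⟨hw.1, hw.2.1⟩).trans (hd.hout v)
  have h1 : cn (fun z => z ≠ y ∧ ¬ S z ∧ G.Adj x z ∧
      pf cl S big inn f D h x y ≤ pf cl S big inn f D h x z) + 1 ≤ cO G S cl x := by
    refine cn_lt (y := y) (fun z hz => ?_) (fun hz => hz.1 rfl) ⟨hxy, Ne.symm hc, by simp [hx, hy]⟩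
    obtain ⟨_, h2, h3, h4⟩ := hz
    refine ⟨h3, fun h5 => ?_, by simp [hx, h2]⟩
    rw [pf_out (by simp [hx]) (Ne.symm hc)] at h4
    exact absurd (pf_lt (hfle z) h5) (not_lt.mpr h4)
  unfold Edge
  by_cases hB : big y ∨ ¬ inn y
  · have h2 : cn (fun z => z ≠ x ∧ S z ∧ G.Adj y z ∧
        pf cl S big inn f D h y x ≤ pf cl S big inn f D h y z) + 1 ≤ cO G S cl y := by
      refine cn_lt (y := x) (fun z hz => ?_) (fun hz => hz.1 rfl) ⟨hxy.symm, hc, by simp [hx, hy]⟩
      obtain ⟨_, h2, h3, h4⟩ := hz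
      refine ⟨h3, fun h5 => ?_, by simp [hy, h2]⟩
      rw [pf_out (by tauto) hc] at h4
      exact absurd (pf_lt (hfle z) h5) (not_lt.mpr h4)
    have h3 := hd.O1 x y hx hy hxy hc hB
    omega
  · push Not at hB
    have h2 : cn (fun z => z ≠ x ∧ S z ∧ G.Adj y z ∧
        pf cl S big inn f D h y x ≤ pf cl S big inn f D h y z) ≤
        cA S cl y + cn (fun z => z ≠ x ∧ G.Adj y z ∧ cl z ≠ cl y ∧ ¬ (S z ↔ S y)) := by
      refine cn_or fun z hz => ?_
      obtain ⟨h1, h2, h3, -⟩ := hz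
      by_cases h5 : cl z = cl y
      · exact Or.inl ⟨h2, h5⟩
      · exact Or.inr ⟨h1, h3, h5, by simp [hy, h2]⟩
    have h4 : cn (fun z => z ≠ x ∧ G.Adj y z ∧ cl z ≠ cl y ∧ ¬ (S z ↔ S y)) + 1 ≤ cO G S cl y :=
      cn_lt (y := x) (fun z hz => hz.2) (fun hz => hz.1 rfl) ⟨hxy.symm, hc, by simp [hx, hy]⟩
    have h3 := hd.O2 x y hx hy hxy hc hB.1 hB.2
    have h5 := hcO x
    have h6 := hcO y
    omega

end Pool.Agent.T9h82.LD
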